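import Pool.Agent.Helper74.LE.GoalsH

/-!
# Project LE (MP_cc6379_al), packet HWT: weights in dihedral groups
-/

set_option autoImplicit false

open LaurentPolynomial Pool.Agent.Helper15.RA Pool.Agent.Helper45.AM

namespace Pool.Agent.Helper72.LE.HWT

open Pool.Agent.Helper74.LL

section aux

variable {S W : Type} [Group W] {M : CoxeterMatrix S} {cs : CoxeterSystem M W} {L : W → ℕ}

theorem mem_a (a c : S) : cs.simple a ∈ par cs {a, c} :=
  Subgroup.subset_closure ⟨a, by simp, rfl⟩

theorem mem_c (a c : S) : cs.simple c ∈ par cs {a, c} :=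
  Subgroup.subset_closure ⟨c, by simp, rfl⟩

theorem one0 (wt : IsWeight cs L) : L 1 = 0 := by
  have h := wt.add 1 1 (by simp)
  rw [mul_one] at h
  omega

theorem pos1 (wt : IsWeight cs L) (i : S) : 1 ≤ L (cs.simple i) := by
  apply wt.pos
  intro h
  have := cs.length_simple i
  rw [h, cs.length_one] at this
  omega

theorem inv_aux (wt : IsWeight cs L) : ∀ (n : ℕ) (w : W), cs.length w = n → L w⁻¹ = L w := by
  intro n
  induction n with
  | zero =>
    intro w hw
    rw [cs.length_eq_zero_iff] at hw
    rw [hw, inv_one]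
  | succ n ih =>
    intro w hw
    have hne : w ≠ 1 := by
      rintro rfl
      rw [cs.length_one] at hw
      omega
    obtain ⟨i, hi⟩ := cs.exists_rightDescent_of_ne_one hne
    have h1 := cs.isRightDescent_iff.1 hi
    have h2 : cs.length (w * cs.simple i) = n := by omega
    have e1 : w = w * cs.simple i * cs.simple i := (cs.simple_mul_simple_cancel_right i).symm
    have l1 : cs.length (w * cs.simple i * cs.simple i) =
        cs.length (w * cs.simple i) + cs.length (cs.simple i) := by
      rw [← e1, cs.length_simple, h1]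
    have a1 := wt.add _ _ l1
    rw [← e1] at a1
    have e2 : w⁻¹ = cs.simple i * (w * cs.simple i)⁻¹ := by
      rw [mul_inv_rev, cs.inv_simple, ← mul_assoc, cs.simple_mul_simple_self, one_mul]
    have l2 : cs.length (cs.simple i * (w * cs.simple i)⁻¹) =
        cs.length (cs.simple i) + cs.length (w * cs.simple i)⁻¹ := by
      rw [← e2, cs.length_inv, cs.length_inv, cs.length_simple, ← h1]
      omega
    have a2 := wt.add _ _ l2
    rw [← e2, ih _ h2] at a2
    omega

theorem al_le : ∀ (k : ℕ) (i j : S), cs.length (al cs i j k) ≤ k := by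
  intro k
  induction k with
  | zero => intro i j; simp [al]
  | succ k ih =>
    intro i j
    have h := cs.length_mul_le (cs.simple i) (al cs j i k)
    rw [cs.length_simple] at h
    have := ih j i
    show cs.length (cs.simple i * al cs j i k) ≤ k + 1
    omega

theorem al_ge (a c : S) : ∀ (d k : ℕ), cs.length (al cs a c (k + d)) = k + d →
    cs.length (al cs c a (k + d)) = k + d →
    cs.length (al cs a c k) = k ∧ cs.length (al cs c a k) = k := by
  intro d
  induction d with
  | zero => intro k h1 h2; exact ⟨h1, h2⟩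
  | succ d ih =>
    intro k h1 h2
    have e : k + (d + 1) = (k + 1) + d := by omega
    rw [e] at h1 h2
    obtain ⟨g1, g2⟩ := ih (k + 1) h1 h2
    have p1 : cs.length (al cs a c (k + 1)) ≤ 1 + cs.length (al cs c a k) := by
      have := cs.length_mul_le (cs.simple a) (al cs c a k)
      rwa [cs.length_simple] at this
    have p2 : cs.length (al cs c a (k + 1)) ≤ 1 + cs.length (al cs a c k) := by
      have := cs.length_mul_le (cs.simple c) (al cs a c k)
      rwa [cs.length_simple] at this
    have q1 := al_le (cs := cs) k a c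
    have q2 := al_le (cs := cs) k c a
    omega

theorem al_sum (wt : IsWeight cs L) (a c : S) (m : ℕ)
    (h : ∀ k ≤ m, cs.length (al cs a c k) = k ∧ cs.length (al cs c a k) = k) :
    ∀ k ≤ m, L (al cs a c k) + L (al cs c a k) = k * (L (cs.simple a) + L (cs.simple c)) := by
  intro k
  induction k with
  | zero =>
    intro _
    have := one0 wt
    simp only [al]
    omega
  | succ k ih =>
    intro hk
    have h0 := ih (by omega)
    obtain ⟨g1, g2⟩ := h k (by omega)
    obtain ⟨g3, g4⟩ := h (k + 1) hk
    have p1 := wt.add (cs.simple a) (al cs c a k) (by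
      rw [cs.length_simple, g2]
      change cs.length (al cs a c (k + 1)) = 1 + k
      omega)
    have p2 := wt.add (cs.simple c) (al cs a c k) (by
      rw [cs.length_simple, g1]
      change cs.length (al cs c a (k + 1)) = 1 + k
      omega)
    change L (cs.simple a * al cs c a k) + L (cs.simple c * al cs a c k) = _
    rw [p1, p2, add_mul, one_mul, ← h0]
    omega

/-- Two letters can be removed from an element of `W_{a,c}` of length at least two. -/
theorem two_step (k1 : KD1) (wt : IsWeight cs L) (a c : S) (hac : a ≠ c) (hM : M a c ≠ 0) (u : W)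
    (hu : u ∈ par cs {a, c}) (h2 : 2 ≤ cs.length u) :
    ∃ v ∈ par cs {a, c}, cs.length v + 2 = cs.length u ∧
      L u = L v + (L (cs.simple a) + L (cs.simple c)) := by
  obtain ⟨-, -, k3, -⟩ := k1 S W M cs a c hac hM
  have step : ∀ u ∈ par cs {a, c}, u ≠ 1 → ∃ d, (d = a ∨ d = c) ∧ cs.IsRightDescent u d ∧
      u * cs.simple d ∈ par cs {a, c} ∧ L u = L (u * cs.simple d) + L (cs.simple d) := by
    intro u hu hu1
    have key : ∀ d, (d = a ∨ d = c) → cs.IsRightDescent u d →
        u * cs.simple d ∈ par cs {a, c} ∧ L u = L (u * cs.simple d) + L (cs.simple d) := by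
      intro d hd hdd
      refine ⟨?_, ?_⟩
      · rcases hd with rfl | rfl
        · exact mul_mem hu (mem_a _ _)
        · exact mul_mem hu (mem_c _ _)
      · have h1 := cs.isRightDescent_iff.1 hdd
        have e1 : u * cs.simple d * cs.simple d = u := cs.simple_mul_simple_cancel_right d
        have := wt.add (u * cs.simple d) (cs.simple d) (by rw [e1, cs.length_simple, h1])
        rwa [e1] at this
    rcases ((k3 u hu).2 hu1).1 with h | h
    · exact ⟨a, Or.inl rfl, h, key a (Or.inl rfl) h⟩
    · exact ⟨c, Or.inr rfl, h, key c (Or.inr rfl) h⟩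
  have hu1 : u ≠ 1 := by
    rintro rfl
    rw [cs.length_one] at h2
    omega
  obtain ⟨d, hd, hdd, hmem, hL⟩ := step u hu hu1
  have h1 := cs.isRightDescent_iff.1 hdd
  have hv1 : u * cs.simple d ≠ 1 := by
    intro h
    rw [h, cs.length_one] at h1
    omega
  obtain ⟨e, he, hee, hmem2, hL2⟩ := step _ hmem hv1
  have h3 := cs.isRightDescent_iff.1 hee
  have hde : d ≠ e := by
    rintro rfl
    exact (cs.isRightDescent_iff_not_isRightDescent_mul.1 hdd) hee
  refine ⟨_, hmem2, by omega, ?_⟩
  rcases hd with rfl | rfl <;> rcases he with rfl | rfl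
  · exact absurd rfl hde
  · omega
  · omega
  · exact absurd rfl hde

/-- An element of `W_{a,c}` of length at least two contains both letters. -/
theorem two_le (k1 : KD1) (wt : IsWeight cs L) (a c : S) (hac : a ≠ c) (hM : M a c ≠ 0) (u : W)
    (hu : u ∈ par cs {a, c}) (h2 : 2 ≤ cs.length u) :
    L (cs.simple a) + L (cs.simple c) ≤ L u := by
  obtain ⟨v, -, -, hv⟩ := two_step k1 wt a c hac hM u hu h2
  omega

/-- An element of `W_{a,c}` of length at least four contains both letters twice. -/
theorem four_le (k1 : KD1) (wt : IsWeight cs L) (a c : S) (hac : a ≠ c) (hM : M a c ≠ 0) (u : W)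
    (hu : u ∈ par cs {a, c}) (h2 : 4 ≤ cs.length u) :
    2 * L (cs.simple a) + 2 * L (cs.simple c) ≤ L u := by
  obtain ⟨v, hvm, hvl, hv⟩ := two_step k1 wt a c hac hM u hu (by omega)
  have := two_le k1 wt a c hac hM v hvm (by omega)
  omega

theorem ge_a (k1 : KD1) (wt : IsWeight cs L) (a c : S) (hac : a ≠ c) (hM : M a c ≠ 0) (u : W)
    (hu : u ∈ par cs {a, c}) (h1 : u ≠ 1) (hc : u ≠ cs.simple c) : L (cs.simple a) ≤ L u := by
  by_cases h2 : 2 ≤ cs.length u
  · have := two_le k1 wt a c hac hM u hu h2
    omega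
  · have h3 : cs.length u ≠ 0 := fun h => h1 (cs.length_eq_zero_iff.1 h)
    have h4 : cs.length u = 1 := by omega
    obtain ⟨-, -, -, -, -, k6, -⟩ := k1 S W M cs a c hac hM
    rcases (k6 u hu).1 h4 with h | h
    · rw [h]
    · exact absurd h hc

end aux

/-- Packet LE-HWT. -/
theorem t (k1 : KD1) : Pool.Agent.Helper74.LE.HWT := by
  intro S W H _ _ _ X
  have wt := X.wt
  have hbig := X.big
  refine ⟨one0 wt, pos1 wt, fun w => inv_aux wt _ w rfl, ?_⟩
  intro a c hac
  have hM := X.fin a c
  obtain ⟨⟨m1, m2, m3, m4, m5⟩, k2, k3, k4, k5, k6, k7, k8, k9, k10, k11⟩ :=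
    k1 S W X.M X.cs a c hac hM
  have hla : ∀ k ≤ X.M a c, X.cs.length (al X.cs a c k) = k ∧
      X.cs.length (al X.cs c a k) = k := by
    intro k hk
    obtain ⟨d, hd⟩ := Nat.exists_eq_add_of_le hk
    apply al_ge a c d k
    · rw [← hd]
      exact m4
    · rw [← hd]
      have : al X.cs c a (X.M a c) = w0 X.cs c a := by
        rw [X.M.symmetric]
        rfl
      rw [this, ← m2]
      exact m4
  have hsum := al_sum wt a c _ hla _ le_rfl
  have hw0 : 2 * X.L (w0 X.cs a c) =
      X.M a c * (X.L (X.cs.simple a) + X.L (X.cs.simple c)) := by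
    have e1 : al X.cs c a (X.M a c) = w0 X.cs a c := by
      rw [m2, X.M.symmetric]
      rfl
    have e2 : al X.cs a c (X.M a c) = w0 X.cs a c := rfl
    rw [e1, e2] at hsum
    omega
  have hsac : X.L (X.cs.simple a * X.cs.simple c) =
      X.L (X.cs.simple a) + X.L (X.cs.simple c) :=
    wt.add _ _ (by rw [k9, X.cs.length_simple, X.cs.length_simple])
  refine ⟨?_, ?_, hsac, ?_, ?_, ?_, ?_⟩
  · intro h2
    have h7 := hbig a c hac h2
    rw [hw0]
    exact Nat.mul_le_mul_right _ h7
  · intro h2
    rw [h2] at hw0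
    omega
  · intro h2
    have h7 := hbig a c hac h2
    have := wt.add (X.cs.simple a * X.cs.simple c) (X.cs.simple a)
      (by rw [k10 (by omega), k9, X.cs.length_simple])
    omega
  · have h1 := (k2 _ (mem_c (cs := X.cs) a c)).2.2.1
    have e : w0 X.cs a c * X.cs.simple c * X.cs.simple c = w0 X.cs a c :=
      X.cs.simple_mul_simple_cancel_right c
    have := wt.add (w0 X.cs a c * X.cs.simple c) (X.cs.simple c) (by rw [e, m4, h1])
    rwa [e] at this
  · have h1 := (k2 _ (mem_c (cs := X.cs) a c)).2.2.2
    have e : X.cs.simple c * (X.cs.simple c * w0 X.cs a c) = w0 X.cs a c :=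
      X.cs.simple_mul_simple_cancel_left c
    have := wt.add (X.cs.simple c) (X.cs.simple c * w0 X.cs a c)
      (by rw [e, m4, X.cs.length_simple]; rw [X.cs.length_simple] at h1; omega)
    rw [e] at this
    omega
  · intro z hz hzw
    have hzi : z⁻¹ ∈ par X.cs {a, c} := inv_mem hz
    obtain ⟨-, -, q1, q2⟩ := k2 _ hzi
    rw [X.cs.length_inv] at q1 q2
    have eu : z * (z⁻¹ * w0 X.cs a c) = w0 X.cs a c := by group
    have eu' : w0 X.cs a c * z⁻¹ * z = w0 X.cs a c := by group
    have Lu : X.L (w0 X.cs a c) = X.L z + X.L (z⁻¹ * w0 X.cs a c) := by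
      have := wt.add z (z⁻¹ * w0 X.cs a c) (by rw [eu, m4]; omega)
      rwa [eu] at this
    have Lu' : X.L (w0 X.cs a c) = X.L (w0 X.cs a c * z⁻¹) + X.L z := by
      have := wt.add (w0 X.cs a c * z⁻¹) z (by rw [eu', m4]; omega)
      rwa [eu'] at this
    have mu : z⁻¹ * w0 X.cs a c ∈ par X.cs {a, c} := mul_mem hzi m1
    have mu' : w0 X.cs a c * z⁻¹ ∈ par X.cs {a, c} := mul_mem m1 hzi
    have nu : z⁻¹ * w0 X.cs a c ≠ 1 := by
      intro h
      apply hzw
      rw [← eu, h, mul_one]
    have nu' : w0 X.cs a c * z⁻¹ ≠ 1 := by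
      intro h
      apply hzw
      rw [← eu', h, one_mul]
    refine ⟨?_, ?_, ?_, ?_, ?_⟩
    · have := wt.pos _ nu
      omega
    · intro h
      have hc : z⁻¹ * w0 X.cs a c ≠ X.cs.simple c := by
        intro h'
        apply h
        rw [← eu, h']
        exact (X.cs.simple_mul_simple_cancel_right c).symm
      have := ge_a k1 wt a c hac hM _ mu nu hc
      omega
    · intro h
      have hc : w0 X.cs a c * z⁻¹ ≠ X.cs.simple c := by
        intro h'
        apply h
        rw [← eu', h']
        exact (X.cs.simple_mul_simple_cancel_left c).symm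
      have := ge_a k1 wt a c hac hM _ mu' nu' hc
      omega
    · intro h
      have := two_le k1 wt a c hac hM _ mu (by omega)
      omega
    · intro h2 h3
      have h7 := hbig a c hac h2
      have := four_le k1 wt a c hac hM _ mu (by omega)
      omega

end Pool.Agent.Helper72.LE.HWT
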